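import Pool.Agent.helper51.QS.SpecA

/-!
# Row qs:CRE (MP_74cfa5_ag): coordinates at a closed point of a smooth variety
-/

set_option autoImplicit false

namespace Pool.Agent.QS

open Pool.Agent.PC MvPolynomial
open scoped TensorProduct

universe u

theorem CRE_alg (k κ : Type u) [Field k] [IsAlgClosed k] [Field κ] [Algebra k κ] [Algebra.FiniteType k κ] :
    Function.Bijective (algebraMap k κ) := by
  have : Module.Finite k κ := finite_of_finite_type_of_isJacobsonRing k κ
  exact IsAlgClosed.algebraMap_bijective_of_isIntegral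

/-- the rank of the fibre at a maximal ideal -/
theorem CRE_rank (k A K κ : Type u) [Field k] [CommRing A] [IsDomain A] [Algebra k A] [Algebra.Smooth k A] [Field K] [Algebra k K]
    [Algebra A K] [IsScalarTower k A K] [IsFractionRing A K] [Field κ] [Algebra A κ] :
    Module.finrank κ (κ ⊗[A] (Ω[A⁄k])) = Module.finrank K (Ω[K⁄k]) := by
  have : Algebra.FormallyEtale A K := Algebra.FormallyEtale.of_isLocalization (nonZeroDivisors A)
  rw [← (KaehlerDifferential.tensorKaehlerEquivOfFormallyEtale k A K).finrank_eq]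
  have h1 := Module.rankAtStalk_baseChange (R := A) (M := Ω[A⁄k]) (S := K) (⊥ : PrimeSpectrum K)
  have h2 := Module.rankAtStalk_baseChange (R := A) (M := Ω[A⁄k]) (S := κ) (⊥ : PrimeSpectrum κ)
  rw [Module.rankAtStalk_eq_finrank_of_free] at h1 h2
  have h3 : PrimeSpectrum.comap (algebraMap A K) ⊥ ≤ PrimeSpectrum.comap (algebraMap A κ) ⊥ := by
    intro x hx
    have h4 : algebraMap A K x = 0 := by
      have : algebraMap A K x ∈ (⊥ : PrimeSpectrum K).asIdeal := hx
      simpa using this
    have h5 : x = 0 := by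
      apply IsFractionRing.injective A K
      rw [h4, map_zero]
    rw [h5]
    exact Ideal.zero_mem _
  have h4 := Module.rankAtStalk_eq_of_le_of_finite_of_flat (Ω[A⁄k]) h3
  rw [← h1, ← h2] at h4
  simpa using h4.symm

theorem CRE : CRE_stmt.{u} := by
  intro k A K _ _ _ _ _ _ _ _ _ _ _ n hn m hm
  let : Field (A ⧸ m) := Ideal.Quotient.field m
  have hsurj : Function.Surjective (algebraMap A (A ⧸ m)) := Ideal.Quotient.mk_surjective
  have : Algebra.FiniteType k (A ⧸ m) := inferInstance
  have hbij := CRE_alg k (A ⧸ m)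
  have : Algebra.FormallyEtale k (A ⧸ m) :=
    Algebra.FormallyEtale.of_equiv (AlgEquiv.ofBijective (Algebra.ofId k (A ⧸ m)) hbij)
  have hinj : Function.Injective (KaehlerDifferential.kerCotangentToTensor k A (A ⧸ m)) := by
    rw [Algebra.FormallySmooth.kerCotangentToTensor_injective_iff hsurj]
    infer_instance
  have hsur : Function.Surjective (KaehlerDifferential.kerCotangentToTensor k A (A ⧸ m)) := by
    intro x
    apply (KaehlerDifferential.exact_kerCotangentToTensor_mapBaseChange k A (A ⧸ m) hsurj x).1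
    exact Subsingleton.elim _ _
  have hrk : Module.finrank (A ⧸ m) ((A ⧸ m) ⊗[A] (Ω[A⁄k])) = n := by
    rw [CRE_rank k A K (A ⧸ m), hn]
  have : Module.Finite (A ⧸ m) ((A ⧸ m) ⊗[A] (Ω[A⁄k])) := inferInstance
  let b : Module.Basis (Fin n) (A ⧸ m) ((A ⧸ m) ⊗[A] (Ω[A⁄k])) := Module.finBasisOfFinrankEq _ _ hrk
  have hker : RingHom.ker (algebraMap A (A ⧸ m)) = m := Ideal.mk_ker
  have hk1 : ∀ x, x ∈ RingHom.ker (algebraMap A (A ⧸ m)) ↔ x ∈ m := fun x => by rw [hker]
  have hk2 : ∀ x, x ∈ RingHom.ker (algebraMap A (A ⧸ m)) ^ 2 ↔ x ∈ m ^ 2 := fun x => by rw [hker]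
  have hpre : ∀ i, ∃ y : RingHom.ker (algebraMap A (A ⧸ m)),
      KaehlerDifferential.kerCotangentToTensor k A (A ⧸ m) (Ideal.toCotangent _ y) = b i := by
    intro i
    obtain ⟨c, hc⟩ := hsur (b i)
    obtain ⟨y, rfl⟩ := Ideal.toCotangent_surjective _ c
    exact ⟨y, hc⟩
  choose y hy using hpre
  have hsum : ∀ c : Fin n → k, KaehlerDifferential.kerCotangentToTensor k A (A ⧸ m)
      (Ideal.toCotangent _ (∑ i, algebraMap k A (c i) • y i)) = ∑ i, algebraMap k (A ⧸ m) (c i) • b i := by
    intro c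
    rw [map_sum, map_sum]
    refine Finset.sum_congr rfl fun i _ => ?_
    rw [map_smul, map_smul, hy i, IsScalarTower.algebraMap_apply k A (A ⧸ m)]
    exact (algebraMap_smul (A ⧸ m) (algebraMap k A (c i)) (b i)).symm
  have hval : ∀ c : Fin n → k, ((∑ i, algebraMap k A (c i) • y i : RingHom.ker (algebraMap A (A ⧸ m))) : A) =
      ∑ i, c i • (y i : A) := by
    intro c
    rw [Submodule.coe_sum]
    refine Finset.sum_congr rfl fun i _ => ?_
    rw [Submodule.coe_smul, smul_eq_mul, Algebra.smul_def]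
  refine ⟨fun i => (y i : A), ?_, ?_, ?_⟩
  · intro i
    exact (hk1 _).1 (y i).2
  · intro c hc
    have h1 : Ideal.toCotangent _ (∑ i, algebraMap k A (c i) • y i) = 0 := by
      rw [Ideal.toCotangent_eq_zero, hval, hk2]
      exact hc
    have h2 := hsum c
    rw [h1, map_zero] at h2
    have h3 := Fintype.linearIndependent_iff.1 b.linearIndependent _ h2.symm
    funext i
    apply hbij.1
    rw [h3 i, Pi.zero_apply, map_zero]
  · intro x hx
    have hx' : x ∈ RingHom.ker (algebraMap A (A ⧸ m)) := by rw [hker]; exact hx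
    choose c hc using fun i => hbij.2 (b.repr (KaehlerDifferential.kerCotangentToTensor k A (A ⧸ m)
      (Ideal.toCotangent _ ⟨x, hx'⟩)) i)
    refine ⟨c, ?_⟩
    have h1 := hsum c
    have h2 : ∑ i, algebraMap k (A ⧸ m) (c i) • b i = KaehlerDifferential.kerCotangentToTensor k A (A ⧸ m)
      (Ideal.toCotangent _ ⟨x, hx'⟩) := by
      rw [← b.sum_repr (KaehlerDifferential.kerCotangentToTensor k A (A ⧸ m) (Ideal.toCotangent _ ⟨x, hx'⟩))]
      refine Finset.sum_congr rfl fun i _ => ?_
      rw [hc i]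
    have h3 := hinj (h1.trans h2)
    rw [Ideal.toCotangent_eq] at h3
    rw [hval, hk2] at h3
    have h4 := (Ideal.neg_mem_iff _).2 h3
    rwa [neg_sub] at h4

end Pool.Agent.QS
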